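import Pool.Agent.H70.RK.T2

/-!
# The canonical tree (module CAN)
-/

set_option autoImplicit false

namespace Pool.Agent.H11.RK

open Finset Filter Pool.Agent.H6.NB Pool.Agent.H70.OQ Pool.Agent.H78.XQ Pool.Agent.H70.RK
open Pool.Agent.H70.RC (Term DNF pv fv psat run Bad)

section gen

variable {W : Type}

theorem on_walk {U : W → Prop} : ∀ (T : TR W) (π : List Bool), T.On U →
    ∀ p ∈ (T.walk π).1, U p.1 := by
  intro T
  induction T with
  | leaf o =>
    intro π _ p hp
    cases π <;> simp [TR.walk] at hp
  | node w l r ihl ihr =>
    intro π hU p hp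
    cases π with
    | nil => simp [TR.walk] at hp
    | cons b π =>
      obtain ⟨h1, h2, h3⟩ := hU
      simp only [TR.walk, List.mem_cons] at hp
      rcases hp with rfl | hp
      · exact h1
      · cases b
        · simp only [Bool.false_eq_true, if_false] at hp
          exact ihl π h2 p hp
        · simp only [if_true] at hp
          exact ihr π h3 p hp

theorem on_mono {U U' : W → Prop} (h : ∀ w, U w → U' w) : ∀ (T : TR W), T.On U → T.On U' := by
  intro T
  induction T with
  | leaf o => intro _; trivial
  | node w l r ihl ihr => exact fun ⟨h1, h2, h3⟩ => ⟨h w h1, ihl h2, ihr h3⟩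

theorem nd_node {w : W} {l r : TR W} (hl : l.Nd) (hr : r.Nd) (hl' : l.On fun v => v ≠ w)
    (hr' : r.On fun v => v ≠ w) : (TR.node w l r).Nd := by
  intro π
  cases π with
  | nil => simp [TR.walk]
  | cons b π =>
    cases b
    · simp only [TR.walk, Bool.false_eq_true, if_false, List.map_cons, List.nodup_cons]
      refine ⟨?_, hl π⟩
      intro hm
      obtain ⟨p, hp, hpw⟩ := List.mem_map.1 hm
      exact on_walk l π hl' p hp hpw
    · simp only [TR.walk, if_true, List.map_cons, List.nodup_cons]
      refine ⟨?_, hr π⟩
      intro hm
      obtain ⟨p, hp, hpw⟩ := List.mem_map.1 hm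
      exact on_walk r π hr' p hp hpw

theorem nd_leaf (o : Option Bool) : (TR.leaf o : TR W).Nd := by
  intro π
  cases π <;> simp [TR.walk]

theorem walk_of_eval (O : W → Bool) : ∀ T : TR W, ∃ π, (T.walk π).2 = some (T.eval O) := by
  intro T
  induction T with
  | leaf o => exact ⟨[], rfl⟩
  | node w l r ihl ihr =>
    obtain ⟨π1, h1⟩ := ihl
    obtain ⟨π2, h2⟩ := ihr
    cases h : O w
    · refine ⟨false :: π1, ?_⟩
      simp [TR.walk, TR.eval, h, h1]
    · refine ⟨true :: π2, ?_⟩
      simp [TR.walk, TR.eval, h, h2]

theorem eval_of_walk (O : W → Bool) : ∀ (T : TR W) (π : List Bool) (o : Option Bool),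
    (∀ p ∈ (T.walk π).1, O p.1 = p.2) → (T.walk π).2 = some o → T.eval O = o := by
  intro T
  induction T with
  | leaf o' =>
    intro π o _ h
    cases π with
    | nil => simpa [TR.walk, TR.eval] using h
    | cons b π => simp [TR.walk] at h
  | node w l r ihl ihr =>
    intro π o hO h
    cases π with
    | nil => simp [TR.walk] at h
    | cons b π =>
      cases b
      · simp only [TR.walk, Bool.false_eq_true, if_false] at hO h
        have hw : O w = false := hO (w, false) (by simp)
        simp only [TR.eval, hw, Bool.false_eq_true, if_false]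
        exact ihl π o (fun p hp => hO p (List.mem_cons_of_mem _ hp)) h
      · simp only [TR.walk, if_true] at hO h
        have hw : O w = true := hO (w, true) (by simp)
        simp only [TR.eval, hw, if_true]
        exact ihr π o (fun p hp => hO p (List.mem_cons_of_mem _ hp)) h

end gen

section can

variable {W S : Type} [DecidableEq S]

theorem askT_depth (st : W → Option S) (F : List (S × Bool) → TR W) (d : ℕ)
    (hF : ∀ κ, (F κ).depth ≤ d) : ∀ (T : Term W) (κ : List (S × Bool)),
    (askT st T κ F).depth ≤ T.length + d := by
  intro T
  induction T with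
  | nil => intro κ; simpa [askT] using hF κ
  | cons p T ih =>
    intro κ
    rw [askT]
    split
    · have := ih κ
      simp only [List.length_cons]; omega
    · rename_i s hs
      split
      · have := ih κ
        simp only [List.length_cons]; omega
      · have h1 := ih ((s, false) :: κ)
        have h2 := ih ((s, true) :: κ)
        simp only [TR.depth, List.length_cons]
        omega

open Classical in
theorem can_depth (st : W → Option S) (bv : W → Bool) (F : DNF W) (D : ℕ)
    (hF : ∀ T ∈ F, T.length ≤ D) : ∀ (r : ℕ) (κ : List (S × Bool)),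
    (can st bv F r κ).depth ≤ r * D := by
  intro r
  induction r with
  | zero => intro κ; simp [can, TR.depth]
  | succ r ih =>
    intro κ
    rw [can]
    split
    · simp [TR.depth]
    · rename_i T hT
      have hTm := List.mem_of_find?_eq_some hT
      have h := askT_depth st (fun κ' => if psat (pv st bv κ') T then .leaf (some true) else
        can st bv F r κ') (r * D) (by
          intro κ'
          split
          · simp [TR.depth]
          · exact ih κ') T κ
      have h2 := hF T hTm
      have h3 : (r + 1) * D = r * D + D := by ring
      rw [h3]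
      exact le_trans h (by omega)

/-- unknown bits with respect to `κ` -/
def Un (st : W → Option S) (κ : List (S × Bool)) (w : W) : Prop :=
  ∃ s, st w = some s ∧ κ.lookup s = none

theorem un_ne {st : W → Option S} {κ : List (S × Bool)} {w v : W} {s : S} {b : Bool}
    (hw : st w = some s) (h : Un st ((s, b) :: κ) v) : v ≠ w := by
  rintro rfl
  obtain ⟨s', h1, h2⟩ := h
  rw [hw] at h1
  obtain rfl := Option.some.inj h1
  simp at h2

theorem un_ext {st : W → Option S} {κ κ' : List (S × Bool)}
    (h : ∀ s, κ'.lookup s = none → κ.lookup s = none) {w : W} (hw : Un st κ' w) : Un st κ w := by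
  obtain ⟨s, h1, h2⟩ := hw
  exact ⟨s, h1, h s h2⟩

theorem ext_cons (κ : List (S × Bool)) (s : S) (b : Bool) (s' : S)
    (h : List.lookup s' ((s, b) :: κ) = none) : κ.lookup s' = none := by
  rw [List.lookup_cons] at h
  split at h
  · simp at h
  · exact h

theorem askT_on (st : W → Option S) (F : List (S × Bool) → TR W) : ∀ (T : Term W)
    (κ : List (S × Bool)),
    (∀ κ', (∀ s, κ'.lookup s = none → κ.lookup s = none) → (F κ').On (Un st κ') ∧ (F κ').Nd) →
    (askT st T κ F).On (Un st κ) ∧ (askT st T κ F).Nd := by
  intro T
  induction T with
  | nil => intro κ hF; exact hF κ (fun _ h => h)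
  | cons p T ih =>
    intro κ hF
    rw [askT]
    split
    · exact ih κ hF
    · rename_i s hs
      split
      · exact ih κ hF
      · rename_i hl
        have h1 := ih ((s, false) :: κ) (fun κ' hκ' => hF κ' fun s' hs' =>
          ext_cons κ s false s' (hκ' s' hs'))
        have h2 := ih ((s, true) :: κ) (fun κ' hκ' => hF κ' fun s' hs' =>
          ext_cons κ s true s' (hκ' s' hs'))
        refine ⟨⟨⟨s, hs, hl⟩, on_mono (fun w hw => un_ext (ext_cons κ s false) hw) _ h1.1,
          on_mono (fun w hw => un_ext (ext_cons κ s true) hw) _ h2.1⟩, ?_⟩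
        exact nd_node h1.2 h2.2 (on_mono (fun w hw => un_ne hs hw) _ h1.1)
          (on_mono (fun w hw => un_ne hs hw) _ h2.1)

theorem can_on (st : W → Option S) (bv : W → Bool) (F : DNF W) : ∀ (r : ℕ) (κ : List (S × Bool)),
    (can st bv F r κ).On (Un st κ) ∧ (can st bv F r κ).Nd := by
  intro r
  induction r with
  | zero => intro κ; exact ⟨trivial, nd_leaf _⟩
  | succ r ih =>
    intro κ
    rw [can]
    split
    · exact ⟨trivial, nd_leaf _⟩
    · rename_i T hT
      refine askT_on st _ T κ ?_
      intro κ' _
      split
      · exact ⟨trivial, nd_leaf _⟩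
      · exact ih κ'

theorem askT_eval (st : W → Option S) (bv : W → Bool) (β : S → Bool)
    (F : List (S × Bool) → TR W) : ∀ (T : Term W) (κ : List (S × Bool)),
    (∀ s b, κ.lookup s = some b → β s = b) →
    ∃ κ' : List (S × Bool), (askT st T κ F).eval (fv st bv β) = (F κ').eval (fv st bv β) ∧
      ∀ s, κ'.lookup s = if (∃ p ∈ T, st p.1 = some s) then some (β s) else κ.lookup s := by
  intro T
  induction T with
  | nil =>
    intro κ hκ
    exact ⟨κ, rfl, fun s => by simp⟩
  | cons p T ih =>
    intro κ hκ
    rw [askT]
    split
    · rename_i hp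
      obtain ⟨κ', h1, h2⟩ := ih κ hκ
      refine ⟨κ', h1, fun s => ?_⟩
      rw [h2 s]
      have : (∃ q ∈ p :: T, st q.1 = some s) ↔ ∃ q ∈ T, st q.1 = some s := by
        constructor
        · rintro ⟨q, hq, hqs⟩
          rcases List.mem_cons.1 hq with rfl | hq
          · rw [hp] at hqs; cases hqs
          · exact ⟨q, hq, hqs⟩
        · rintro ⟨q, hq, hqs⟩
          exact ⟨q, List.mem_cons_of_mem _ hq, hqs⟩
      simp only [this]
    · rename_i s hs
      split
      · rename_i b hb
        obtain ⟨κ', h1, h2⟩ := ih κ hκ
        refine ⟨κ', h1, fun s' => ?_⟩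
        rw [h2 s']
        by_cases h : ∃ q ∈ T, st q.1 = some s'
        · have h' : ∃ q ∈ p :: T, st q.1 = some s' := by
            obtain ⟨q, hq, hqs⟩ := h
            exact ⟨q, List.mem_cons_of_mem _ hq, hqs⟩
          rw [if_pos h, if_pos h']
        · rw [if_neg h]
          by_cases h' : ∃ q ∈ p :: T, st q.1 = some s'
          · obtain ⟨q, hq, hqs⟩ := h'
            rcases List.mem_cons.1 hq with rfl | hq2
            · rw [hs] at hqs
              obtain rfl := Option.some.inj hqs
              rw [if_pos ⟨q, hq, hs⟩, hb, hκ s b hb]
            · exact absurd ⟨q, hq2, hqs⟩ h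
          · rw [if_neg h']
      · rename_i hb
        have key : ∀ b : Bool, β s = b → ∃ κ' : List (S × Bool),
            (askT st T ((s, b) :: κ) F).eval (fv st bv β) = (F κ').eval (fv st bv β) ∧
            ∀ s', κ'.lookup s' = if (∃ q ∈ p :: T, st q.1 = some s') then some (β s')
              else κ.lookup s' := by
          intro b hβ
          obtain ⟨κ', h1, h2⟩ := ih ((s, b) :: κ) (by
            intro s' b' h
            rw [List.lookup_cons] at h
            split at h
            · rename_i he
              have : s' = s := by simpa using he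
              subst this
              rw [hβ]; exact Option.some.inj h
            · exact hκ s' b' h)
          refine ⟨κ', h1, fun s' => ?_⟩
          rw [h2 s']
          by_cases h : ∃ q ∈ T, st q.1 = some s'
          · have h' : ∃ q ∈ p :: T, st q.1 = some s' := by
              obtain ⟨q, hq, hqs⟩ := h
              exact ⟨q, List.mem_cons_of_mem _ hq, hqs⟩
            rw [if_pos h, if_pos h']
          · rw [if_neg h, List.lookup_cons]
            by_cases he : s' = s
            · subst he
              rw [if_pos ⟨p, List.mem_cons_self, hs⟩]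
              simp [hβ]
            · have h' : ¬ ∃ q ∈ p :: T, st q.1 = some s' := by
                rintro ⟨q, hq, hqs⟩
                rcases List.mem_cons.1 hq with rfl | hq2
                · rw [hs] at hqs
                  exact he (Option.some.inj hqs).symm
                · exact h ⟨q, hq2, hqs⟩
              rw [if_neg h']
              have : (s' == s) = false := by simpa using he
              rw [this]
        have hfv : fv st bv β p.1 = β s := by simp [fv, hs]
        cases hβ : β s
        · obtain ⟨κ', h1, h2⟩ := key false hβ
          refine ⟨κ', ?_, h2⟩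
          rw [← h1]
          simp [TR.eval, hfv, hβ]
        · obtain ⟨κ', h1, h2⟩ := key true hβ
          refine ⟨κ', ?_, h2⟩
          rw [← h1]
          simp [TR.eval, hfv, hβ]

theorem pv_congr (st : W → Option S) (bv : W → Bool) {κ κ' : List (S × Bool)}
    (h : ∀ s, κ.lookup s = κ'.lookup s) : pv st bv κ = pv st bv κ' := by
  funext w
  unfold pv
  split
  · rfl
  · exact h _

theorem run_congr (st : W → Option S) (bv : W → Bool) (F : DNF W) (β : S → Bool) : ∀ (r : ℕ)
    (κ κ' : List (S × Bool)), (∀ s, κ.lookup s = κ'.lookup s) →
    run st bv F β r κ = run st bv F β r κ' := by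
  intro r
  induction r with
  | zero => intro κ κ' _; rfl
  | succ r ih =>
    intro κ κ' h
    rw [run, run, pv_congr st bv h]
    split
    · rfl
    · split
      · rfl
      · refine ih _ _ fun s => ?_
        rw [List.lookup_append, List.lookup_append, h s]

theorem lookup_fm (st : W → Option S) (β : S → Bool) (T : Term W) (s : S) :
    (T.filterMap fun p => (st p.1).map fun s => (s, β s)).lookup s =
      if (∃ p ∈ T, st p.1 = some s) then some (β s) else none := by
  induction T with
  | nil => simp
  | cons p T ih =>
    rw [List.filterMap_cons]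
    cases hp : st p.1 with
    | none =>
      simp only [Option.map_none]
      rw [ih]
      have : (∃ q ∈ p :: T, st q.1 = some s) ↔ ∃ q ∈ T, st q.1 = some s := by
        constructor
        · rintro ⟨q, hq, hqs⟩
          rcases List.mem_cons.1 hq with rfl | hq
          · rw [hp] at hqs; cases hqs
          · exact ⟨q, hq, hqs⟩
        · rintro ⟨q, hq, hqs⟩
          exact ⟨q, List.mem_cons_of_mem _ hq, hqs⟩
      simp only [this]
    | some s0 =>
      simp only [Option.map_some]
      rw [List.lookup_cons, ih]
      by_cases he : s = s0
      · subst he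
        have h1 : ∃ q ∈ p :: T, st q.1 = some s := ⟨p, List.mem_cons_self, hp⟩
        rw [if_pos h1]
        simp
      · have : (s == s0) = false := by simpa using he
        rw [this]
        have : (∃ q ∈ p :: T, st q.1 = some s) ↔ ∃ q ∈ T, st q.1 = some s := by
          constructor
          · rintro ⟨q, hq, hqs⟩
            rcases List.mem_cons.1 hq with rfl | hq
            · rw [hp] at hqs
              exact absurd (Option.some.inj hqs).symm he
            · exact ⟨q, hq, hqs⟩
          · rintro ⟨q, hq, hqs⟩
            exact ⟨q, List.mem_cons_of_mem _ hq, hqs⟩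
        simp only [this]

open Classical in
theorem can_eval (st : W → Option S) (bv : W → Bool) (F : DNF W) (β : S → Bool) : ∀ (r : ℕ)
    (κ : List (S × Bool)), (∀ s b, κ.lookup s = some b → β s = b) →
    (can st bv F r κ).eval (fv st bv β) = run st bv F β r κ := by
  intro r
  induction r with
  | zero => intro κ _; rfl
  | succ r ih =>
    intro κ hκ
    rw [can, run]
    cases hT : F.find? (fun T => decide (psat (pv st bv κ) T)) with
    | none => rfl
    | some T =>
      dsimp only
      obtain ⟨κ', h1, h2⟩ := askT_eval st bv β (fun κ' =>
        if psat (pv st bv κ') T then .leaf (some true) else can st bv F r κ') T κ hκ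
      rw [h1]
      have hκ' : ∀ s b, κ'.lookup s = some b → β s = b := by
        intro s b h
        rw [h2 s] at h
        split at h
        · exact Option.some.inj h
        · exact hκ s b h
      have hiff : psat (pv st bv κ') T ↔ Term.Sat (fv st bv β) T := by
        unfold psat Term.Sat
        refine forall₂_congr fun p hp => ?_
        unfold pv fv
        split
        · rename_i h0
          simp
        · rename_i s hs
          have : κ'.lookup s = some (β s) := by
            rw [h2 s, if_pos ⟨p, hp, hs⟩]
          simp [this]
      by_cases h : Term.Sat (fv st bv β) T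
      · rw [if_pos h, if_pos (hiff.2 h)]
        rfl
      · rw [if_neg h, if_neg (fun h' => h (hiff.1 h')), ih κ' hκ']
        refine run_congr st bv F β r _ _ fun s => ?_
        rw [List.lookup_append, lookup_fm, h2 s]
        split
        · simp
        · simp

theorem find_congr {α : Type} (L : List α) (p q : α → Bool) (h : ∀ a ∈ L, p a = q a) :
    L.find? p = L.find? q := by
  induction L with
  | nil => rfl
  | cons a L ih =>
    rw [List.find?_cons, List.find?_cons, h a List.mem_cons_self,
      ih fun b hb => h b (List.mem_cons_of_mem _ hb)]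

open Classical in
theorem can_bv (st : W → Option S) (bv bv' : W → Bool) (F : DNF W)
    (h : ∀ T ∈ F, ∀ p ∈ T, st p.1 = none → bv p.1 = bv' p.1) : ∀ (r : ℕ)
    (κ : List (S × Bool)), can st bv' F r κ = can st bv F r κ := by
  have hps : ∀ T ∈ F, ∀ κ : List (S × Bool), psat (pv st bv κ) T ↔ psat (pv st bv' κ) T := by
    intro T hT κ
    unfold psat
    refine forall₂_congr fun p hp => ?_
    unfold pv
    split
    · rename_i h0
      rw [h T hT p hp h0]
    · rfl
  intro r
  induction r with
  | zero => intro κ; rfl
  | succ r ih =>
    intro κ
    rw [can, can]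
    have hf : F.find? (fun T => decide (psat (pv st bv' κ) T)) =
        F.find? (fun T => decide (psat (pv st bv κ) T)) := by
      refine find_congr F _ _ ?_
      intro T hT
      simp only [decide_eq_decide]
      exact (hps T hT κ).symm
    rw [hf]
    split
    · rfl
    · rename_i T hT
      have hTm := List.mem_of_find?_eq_some hT
      congr 1
      funext κ'
      rw [ih κ']
      by_cases h0 : psat (pv st bv κ') T
      · rw [if_pos h0, if_pos ((hps T hTm κ').1 h0)]
      · rw [if_neg h0, if_neg (fun h' => h0 ((hps T hTm κ').2 h'))]

theorem can_tot (st : W → Option S) (bv : W → Bool) (F : DNF W) (r : ℕ)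
    (hst : ∀ w w' s, st w = some s → st w' = some s → w = w') :
    ¬ Bad st bv F r ↔ (can st bv F r []).Tot := by
  have hev := fun β => can_eval st bv F β r [] (by simp)
  constructor
  · intro hB π hπ
    apply hB
    classical
    refine ⟨fun s => decide (∃ p ∈ ((can st bv F r []).walk π).1, st p.1 = some s ∧ p.2 = true), ?_⟩
    rw [← hev]
    refine eval_of_walk _ _ π none ?_ hπ
    intro p hp
    obtain ⟨s, hs, _⟩ := on_walk _ π (can_on st bv F r []).1 p hp
    have hnd := (can_on st bv F r []).2 π
    simp only [fv, hs]
    cases hb : p.2
    · simp only [decide_eq_false_iff_not]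
      rintro ⟨q, hq, hqs, hqb⟩
      have h1 := hst _ _ _ hs hqs
      have h2 : p = q := by
        have := List.inj_on_of_nodup_map hnd hp hq h1
        exact this
      rw [h2] at hb
      rw [hb] at hqb
      cases hqb
    · simp only [decide_eq_true_eq]
      exact ⟨p, hp, hs, hb⟩
  · intro hT ⟨β, hβ⟩
    rw [← hev] at hβ
    obtain ⟨π, hπ⟩ := walk_of_eval (fv st bv β) (can st bv F r [])
    rw [hβ] at hπ
    exact hT π hπ

end can

theorem pf_CAN : T_CAN := by
  intro W S _ st bv F r D hst hF
  have hon := can_on st bv F r []
  refine ⟨can_depth st bv F D hF r [], ?_, hon.2, can_tot st bv F r hst, ?_, ?_⟩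
  · refine on_mono ?_ _ hon.1
    rintro w ⟨s, hs, _⟩
    rw [hs]; simp
  · intro β
    exact can_eval st bv F β r [] (by simp)
  · intro bv' h
    have h1 := can_bv st bv bv' F h r []
    refine ⟨h1, ?_⟩
    have h2 := can_tot st bv F r hst
    have h3 := can_tot st bv' F r hst
    rw [h1, ← h2] at h3
    exact not_iff_not.1 h3

end Pool.Agent.H11.RK
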