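import Pool.Agent.H70.RK.T2

/-!
# The number of bad hints and arrays (module RZK)
-/

set_option autoImplicit false

namespace Pool.Agent.H11.RK

open Finset Filter Pool.Agent.H6.NB Pool.Agent.H70.OQ Pool.Agent.H78.XQ Pool.Agent.H70.RK
open Pool.Agent.H70.RC (Term DNF pv fv psat run Bad Arry)

section abs

theorem nc_eq {α : Type} [Fintype α] (P : α → Prop) [DecidablePred P] :
    (Nat.card {x // P x} : ℝ) = ∑ x, if P x then (1 : ℝ) else 0 := by
  rw [Nat.card_eq_fintype_card, Fintype.card_subtype, Finset.card_filter]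
  push_cast
  rfl

open Classical in
theorem stage {A H Gf G2 : Type} [Finite A] [Finite H] [Finite Gf] [Finite G2] [Nonempty G2]
    (Q : A → Gf → Prop) (R : A → H → Gf → Prop) (P : (A × H) × Gf → Prop)
    (ovr : A → Gf → G2 → Gf) (res : A → Gf → G2)
    (h : ∀ x, P x → Q x.1.1 x.2 ∨ R x.1.1 x.1.2 x.2)
    (hswap : ∀ a, Function.Injective fun p : Gf × G2 => (ovr a p.1 p.2, res a p.1))
    (K B1 B2 : ℝ) (hK : 0 ≤ K)
    (hQ : (Nat.card {y : A × Gf // Q y.1 y.2} : ℝ) * K ≤ B1 * (Nat.card A * Nat.card Gf))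
    (hR : ∀ a g, (Nat.card {y : H × G2 // R a y.1 (ovr a g y.2)} : ℝ) * K ≤
      B2 * (Nat.card H * Nat.card G2)) :
    (Nat.card {x // P x} : ℝ) * K ≤ (B1 + B2) * (Nat.card (A × H) * Nat.card Gf) := by
  have := Fintype.ofFinite A
  have := Fintype.ofFinite H
  have := Fintype.ofFinite Gf
  have := Fintype.ofFinite G2
  have hG2 : (0 : ℝ) < Nat.card G2 := by
    rw [Nat.card_eq_fintype_card]
    exact_mod_cast Fintype.card_pos
  have h1 : (Nat.card {x // P x} : ℝ) ≤ (Nat.card H : ℝ) * Nat.card {y : A × Gf // Q y.1 y.2} +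
      ∑ a, ∑ b : H, ∑ g : Gf, if R a b g then (1 : ℝ) else 0 := by
    rw [nc_eq, nc_eq, Fintype.sum_prod_type, Fintype.sum_prod_type, Fintype.sum_prod_type,
      Nat.card_eq_fintype_card (α := H)]
    have e1 : (Fintype.card H : ℝ) * ∑ a : A, ∑ g : Gf, (if Q a g then (1 : ℝ) else 0) =
        ∑ a : A, ∑ _b : H, ∑ g : Gf, (if Q a g then (1 : ℝ) else 0) := by
      rw [Finset.mul_sum]
      refine Finset.sum_congr rfl fun a _ => ?_
      rw [Finset.sum_const, Finset.card_univ, nsmul_eq_mul]
    rw [e1, ← Finset.sum_add_distrib]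
    refine Finset.sum_le_sum fun a _ => ?_
    rw [← Finset.sum_add_distrib]
    refine Finset.sum_le_sum fun b _ => ?_
    rw [← Finset.sum_add_distrib]
    refine Finset.sum_le_sum fun g _ => ?_
    by_cases hP : P ((a, b), g)
    · rw [if_pos hP]
      rcases h _ hP with h2 | h2
      · rw [if_pos h2]
        have : (0 : ℝ) ≤ if R a b g then (1 : ℝ) else 0 := by split <;> norm_num
        linarith
      · rw [if_pos h2]
        have : (0 : ℝ) ≤ if Q a g then (1 : ℝ) else 0 := by split <;> norm_num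
        linarith
    · rw [if_neg hP]
      have h3 : (0 : ℝ) ≤ if R a b g then (1 : ℝ) else 0 := by split <;> norm_num
      have h4 : (0 : ℝ) ≤ if Q a g then (1 : ℝ) else 0 := by split <;> norm_num
      linarith
  have h2 : ∀ a : A, (∑ b : H, ∑ g : Gf, if R a b g then (1 : ℝ) else 0) * K ≤
      B2 * (Nat.card H * Nat.card Gf) := by
    intro a
    have hbij : Function.Bijective fun p : Gf × G2 => (ovr a p.1 p.2, res a p.1) :=
      Finite.injective_iff_bijective.1 (hswap a)
    have h3 : (Nat.card G2 : ℝ) * (∑ b : H, ∑ g : Gf, if R a b g then (1 : ℝ) else 0) =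
        ∑ g : Gf, (Nat.card {y : H × G2 // R a y.1 (ovr a g y.2)} : ℝ) := by
      have h4 : ∀ b : H, (Nat.card G2 : ℝ) * (∑ g : Gf, if R a b g then (1 : ℝ) else 0) =
          ∑ g : Gf, ∑ g2 : G2, if R a b (ovr a g g2) then (1 : ℝ) else 0 := by
        intro b
        have h5 := Function.Bijective.sum_comp hbij
          (fun p : Gf × G2 => if R a b p.1 then (1 : ℝ) else 0)
        simp only at h5
        rw [← Fintype.sum_prod_type (fun p : Gf × G2 =>
          if R a b (ovr a p.1 p.2) then (1 : ℝ) else 0), h5, Fintype.sum_prod_type,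
          Finset.mul_sum]
        refine Finset.sum_congr rfl fun g _ => ?_
        show _ = ∑ _y : G2, if R a b g then (1 : ℝ) else 0
        rw [Finset.sum_const, Finset.card_univ, nsmul_eq_mul, Nat.card_eq_fintype_card]
      rw [Finset.mul_sum]
      simp_rw [h4]
      rw [Finset.sum_comm]
      refine Finset.sum_congr rfl fun g _ => ?_
      rw [nc_eq, Fintype.sum_prod_type]
    have h6 : (∑ g : Gf, (Nat.card {y : H × G2 // R a y.1 (ovr a g y.2)} : ℝ)) * K ≤
        Nat.card Gf * (B2 * (Nat.card H * Nat.card G2)) := by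
      rw [Finset.sum_mul]
      refine le_trans (Finset.sum_le_sum fun g _ => hR a g) ?_
      rw [Finset.sum_const, Finset.card_univ, nsmul_eq_mul, Nat.card_eq_fintype_card (α := Gf)]
    rw [← h3] at h6
    refine le_of_mul_le_mul_left ?_ hG2
    calc (Nat.card G2 : ℝ) * ((∑ b : H, ∑ g : Gf, if R a b g then (1 : ℝ) else 0) * K) =
        (Nat.card G2 : ℝ) * (∑ b : H, ∑ g : Gf, if R a b g then (1 : ℝ) else 0) * K := by ring
      _ ≤ _ := h6
      _ = _ := by ring
  have h7 : (∑ a : A, ∑ b : H, ∑ g : Gf, if R a b g then (1 : ℝ) else 0) * K ≤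
      Nat.card A * (B2 * (Nat.card H * Nat.card Gf)) := by
    rw [Finset.sum_mul]
    refine le_trans (Finset.sum_le_sum fun a _ => h2 a) ?_
    rw [Finset.sum_const, Finset.card_univ, nsmul_eq_mul, Nat.card_eq_fintype_card (α := A)]
  have h8 : (0 : ℝ) ≤ Nat.card H := Nat.cast_nonneg _
  have h9 := mul_le_mul_of_nonneg_left hQ h8
  rw [Nat.card_prod]
  push_cast
  have h10 := mul_le_mul_of_nonneg_right h1 hK
  rw [add_mul] at h10
  nlinarith [h10, h9, h7]

theorem card_list {α β : Type} [Finite α] (Q : β → α → Prop) (K B : ℝ) (hK : 0 ≤ K) :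
    ∀ l : List β, (∀ L ∈ l, (Nat.card {x // Q L x} : ℝ) * K ≤ B) →
    (Nat.card {x // ∃ L ∈ l, Q L x} : ℝ) * K ≤ l.length * B := by
  classical
  have := Fintype.ofFinite α
  intro l
  induction l with
  | nil =>
    intro _
    simp
  | cons L l ih =>
    intro h
    have h1 := h L List.mem_cons_self
    have h2 := ih fun L' hL' => h L' (List.mem_cons_of_mem _ hL')
    have h3 : (Nat.card {x // ∃ L' ∈ L :: l, Q L' x} : ℝ) ≤ Nat.card {x // Q L x} +
        Nat.card {x // ∃ L' ∈ l, Q L' x} := by
      rw [nc_eq, nc_eq, nc_eq, ← Finset.sum_add_distrib]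
      refine Finset.sum_le_sum fun x _ => ?_
      have ha : (0 : ℝ) ≤ if Q L x then (1 : ℝ) else 0 := by split <;> norm_num
      have hb : (0 : ℝ) ≤ if (∃ L' ∈ l, Q L' x) then (1 : ℝ) else 0 := by split <;> norm_num
      by_cases hx : ∃ L' ∈ L :: l, Q L' x
      · rw [if_pos hx]
        obtain ⟨L', hL', hQ⟩ := hx
        rcases List.mem_cons.1 hL' with rfl | hL'
        · rw [if_pos hQ]; linarith
        · have hx' : ∃ L' ∈ l, Q L' x := ⟨L', hL', hQ⟩
          rw [if_pos hx']; linarith
      · rw [if_neg hx]; linarith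
    have h4 := mul_le_mul_of_nonneg_right h3 hK
    rw [List.length_cons]
    push_cast
    nlinarith [h4, h1, h2]

end abs

section cells

variable {I W : Type} {Ch : I → Type} {m : ℕ}

theorem sti_iff {X : Type} {ps : X → W} (hps : Function.Injective ps) (w : W) (x : X) :
    sti ps w = some x ↔ w = ps x := by
  unfold sti
  split
  · rename_i h
    have h1 := h.choose_spec
    constructor
    · intro h2
      rw [← Option.some.inj h2]
      exact h1.symm
    · intro h2
      congr 1
      exact hps (h1.trans h2)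
  · rename_i h
    constructor
    · intro h2; cases h2
    · intro h2
      exact absurd ⟨x, h2.symm⟩ h

theorem sti_ne {X : Type} {ps : X → W} {w : W} (h : sti ps w ≠ none) : ∃ x, ps x = w := by
  unfold sti at h
  split at h
  · assumption
  · exact absurd rfl h

/-- the cell of the star -/
def stc (a : (x : Ce I Ch m) → Ch x.1) (x : Ce I Ch m) : Ce I Ch (m + 1) :=
  ⟨x.1, Fin.cons (α := fun _ => Ch x.1) (a x) x.2⟩

/-- the cell without its first chunk -/
def tl (y : Ce I Ch (m + 1)) : Ce I Ch m := ⟨y.1, Fin.tail (α := fun _ => Ch y.1) y.2⟩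

theorem tl_stc (a : (x : Ce I Ch m) → Ch x.1) (x : Ce I Ch m) : tl (stc a x) = x := rfl

theorem stc_tl (a : (x : Ce I Ch m) → Ch x.1) (y : Ce I Ch (m + 1)) (h : y.2 0 = a (tl y)) :
    stc a (tl y) = y := by
  obtain ⟨i, v⟩ := y
  unfold stc tl
  congr 1
  have h' : a ⟨i, Fin.tail (α := fun _ => Ch i) v⟩ = v 0 := h.symm
  dsimp only
  rw [h']
  exact Fin.cons_self_tail (α := fun _ => Ch i) v

theorem dwn_inj {ps : Ce I Ch (m + 1) → W} (hps : Function.Injective ps)
    (a : (x : Ce I Ch m) → Ch x.1) : Function.Injective (dwn ps a) := by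
  intro x y h
  have h1 : stc a x = stc a y := hps h
  have h2 := congrArg tl h1
  exact h2

open Classical in
/-- replace the values at the stars -/
noncomputable def ovr (a : (x : Ce I Ch m) → Ch x.1) (g : Ce I Ch (m + 1) → Bool)
    (g2 : Ce I Ch m → Bool) (y : Ce I Ch (m + 1)) : Bool :=
  if y.2 0 = a (tl y) then g2 (tl y) else g y

/-- the values at the stars -/
def rst (a : (x : Ce I Ch m) → Ch x.1) (g : Ce I Ch (m + 1) → Bool) (x : Ce I Ch m) : Bool :=
  g (stc a x)

theorem ovr_stc (a : (x : Ce I Ch m) → Ch x.1) (g : Ce I Ch (m + 1) → Bool)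
    (g2 : Ce I Ch m → Bool) (x : Ce I Ch m) : ovr a g g2 (stc a x) = g2 x := by
  unfold ovr
  rw [if_pos]
  · rfl
  · rfl

theorem ovr_not (a : (x : Ce I Ch m) → Ch x.1) (g : Ce I Ch (m + 1) → Bool)
    (g2 : Ce I Ch m → Bool) (y : Ce I Ch (m + 1)) (h : ∀ x, stc a x ≠ y) :
    ovr a g g2 y = g y := by
  unfold ovr
  rw [if_neg]
  intro h1
  exact h (tl y) (stc_tl a y h1)

theorem swap_inj (a : (x : Ce I Ch m) → Ch x.1) : Function.Injective
    fun p : (Ce I Ch (m + 1) → Bool) × (Ce I Ch m → Bool) => (ovr a p.1 p.2, rst a p.1) := by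
  rintro ⟨g, g2⟩ ⟨g', g2'⟩ h
  simp only [Prod.mk.injEq] at h
  obtain ⟨h1, h2⟩ := h
  have e1 : g = g' := by
    funext y
    by_cases hy : ∃ x, stc a x = y
    · obtain ⟨x, rfl⟩ := hy
      exact congrFun h2 x
    · have hy' : ∀ x, stc a x ≠ y := fun x hx => hy ⟨x, hx⟩
      have := congrFun h1 y
      rwa [ovr_not a g g2 y hy', ovr_not a g' g2' y hy'] at this
  have e2 : g2 = g2' := by
    funext x
    have := congrFun h1 (stc a x)
    rwa [ovr_stc, ovr_stc] at this
  rw [e1, e2]

/-- tables over the cells as tables over the first chunks -/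
def eq1 : ((x : Ce I Ch m) → Ch x.1 → Bool) ≃ (Ce I Ch (m + 1) → Bool) where
  toFun h y := h (tl y) (y.2 0)
  invFun g x c := g ⟨x.1, Fin.cons (α := fun _ => Ch x.1) c x.2⟩
  left_inv h := by
    funext x c
    rfl
  right_inv g := by
    funext y
    obtain ⟨i, v⟩ := y
    show g ⟨i, Fin.cons (α := fun _ => Ch i) (v 0) (Fin.tail (α := fun _ => Ch i) v)⟩ = g ⟨i, v⟩
    rw [Fin.cons_self_tail (α := fun _ => Ch i) v]

end cells

open Classical in
theorem pf_RZK (hRAZ : Pool.Agent.H70.RC.T_RAZ) (hCAN : T_CAN) (hDNS : T_DNS) (hGTL : T_GTL) :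
    T_RZK := by
  obtain ⟨hG1, hG2, hG3, hG4, hG5, hG6, hG7⟩ := hGTL
  intro I W _ hd1 _ Ch _ hd2 r M s m
  clear hd1 hd2
  induction m with
  | zero =>
    intro D ps bv G _ _ _ _ _ _ _ _ _ _
    have : IsEmpty {x : Hn I Ch 0 × (Ce I Ch 0 → Bool) // ¬ gd (bv x.2) r 0 D ps x.1 G} :=
      ⟨fun x => x.2 trivial⟩
    rw [Nat.card_of_isEmpty]
    simp
  | succ m ih =>
    intro D ps bv G hps hbv hoth hsz hT hM hs hr hM1 hrM
    have hsz' : gsz (T := List (TR W)) s m G := hsz.1
    have hlen := hG3 (List (TR W)) s m G hsz'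
    have hT' : ∀ L ∈ gbs (T := List (TR W)) m G, ∀ T ∈ L, T.depth ≤ D ∧ T.Nd ∧
        T.On fun w => ∃ x, ps x = w := by
      intro L hL T hTL
      exact hT T (List.mem_flatten.2 ⟨L, hL, hTL⟩)
    have hrD : r * D ≤ r * (r ^ (m + 1) * D) := by
      refine Nat.mul_le_mul_left _ ?_
      exact Nat.le_mul_of_pos_left _ (by positivity)
    -- the canonical trees
    have hcan : ∀ (a : (x : Ce I Ch m) → Ch x.1) (bv0 : W → Bool), ∀ L ∈ gbs (T := List (TR W)) m G,
        (can (sti (dwn ps a)) bv0 (dn D L) r []).depth ≤ r * D ∧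
        (can (sti (dwn ps a)) bv0 (dn D L) r []).Nd ∧
        ((can (sti (dwn ps a)) bv0 (dn D L) r []).On fun w => ∃ x, dwn ps a x = w) ∧
        ∀ bv' : W → Bool, (∀ T ∈ dn D L, ∀ p ∈ T, sti (dwn ps a) p.1 = none → bv0 p.1 = bv' p.1) →
          can (sti (dwn ps a)) bv' (dn D L) r [] = can (sti (dwn ps a)) bv0 (dn D L) r [] := by
      intro a bv0 L hL
      have hd := dwn_inj hps a
      have h1 := hCAN W (Ce I Ch m) (sti (dwn ps a)) bv0 (dn D L) r D
        (by
          intro w w' x h1 h2
          rw [sti_iff hd] at h1 h2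
          rw [h1, h2]) (hDNS W D L).2.2.1
      obtain ⟨h2, h3, h4, _, _, h5⟩ := h1
      refine ⟨h2, h4, ?_, fun bv' h => (h5 bv' h).1⟩
      have on_mono' : ∀ T : TR W, (T.On fun w => sti (dwn ps a) w ≠ none) →
          T.On fun w => ∃ x, dwn ps a x = w := by
        intro T
        induction T with
        | leaf o => intro _; trivial
        | node w l r ihl ihr => exact fun ⟨h1, h2, h3⟩ => ⟨sti_ne h1, ihl h2, ihr h3⟩
      exact on_mono' _ h3
    -- the first stage
    set B : ℝ := 3 * (4 * ((r : ℝ) * ((r : ℝ) ^ (m + 1) * D))) ^ r with hB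
    have hB0 : 0 ≤ B := by positivity
    have hQ : (Nat.card {y : ((x : Ce I Ch m) → Ch x.1) × (Ce I Ch (m + 1) → Bool) //
        ∃ L ∈ gbs (T := List (TR W)) m G, Bad (sti (dwn ps y.1)) (bv y.2) (dn D L) r} : ℝ) *
        (M : ℝ) ^ r ≤ ((s : ℝ) ^ m * B) * (Nat.card ((x : Ce I Ch m) → Ch x.1) *
          Nat.card (Ce I Ch (m + 1) → Bool)) := by
      have h1 := card_list (α := ((x : Ce I Ch m) → Ch x.1) × (Ce I Ch (m + 1) → Bool))
        (fun (L : List (TR W)) y => Bad (sti (dwn ps y.1)) (bv y.2) (dn D L) r) ((M : ℝ) ^ r)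
        (B * (Nat.card ((x : Ce I Ch m) → Ch x.1) * Nat.card (Ce I Ch (m + 1) → Bool)))
        (by positivity) (gbs (T := List (TR W)) m G) (by
          intro L hL
          have h2 := @hRAZ (Ce I Ch m) W _ _ _
            (fun x => Ch x.1) _ _ (fun x => ps ⟨x.1.1, Fin.cons (α := fun _ => Ch x.1.1) x.2 x.1.2⟩)
            (fun a => sti (dwn ps a)) (fun h => bv (eq1 h)) (dn D L) D r M
            { hinj := by
                rintro ⟨x, c⟩ ⟨x', c'⟩ h
                have h1 := hps h
                have h2 : x = x' := congrArg tl h1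
                subst h2
                have h3 : (Fin.cons (α := fun _ => Ch x.1) c x.2 : Fin (m + 1) → Ch x.1) =
                    Fin.cons (α := fun _ => Ch x.1) c' x.2 := by
                  have := (Sigma.mk.inj h1).2
                  exact eq_of_heq this
                have h4 : c = c' := congrFun h3 0
                rw [h4]
              hst := by
                intro a w x
                exact sti_iff (dwn_inj hps a) w x
              hbv := by
                rintro h ⟨x, c⟩
                rw [hbv]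
                rfl
              hoth := by
                intro h h' w hw
                refine hoth _ _ w ?_
                rintro ⟨i, v⟩ hy
                refine hw ⟨⟨i, Fin.tail (α := fun _ => Ch i) v⟩, v 0⟩ ?_
                rw [← hy]
                congr 2
                exact (Fin.cons_self_tail (α := fun _ => Ch i) v).symm }
            (fun T hTT => ⟨(hDNS W D L).2.2.1 T hTT,
              (hDNS W D L).2.2.2.1 (fun T hTL => (hT' L hL T hTL).2.1) T hTT⟩)
            (fun x => hM x.1) (le_trans (Nat.mul_le_mul_left 4 hrD) hrM) hM1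
          have e1 : Nat.card {p : ((x : Ce I Ch m) → Ch x.1) × ((x : Ce I Ch m) → Ch x.1 → Bool) //
              Bad (sti (dwn ps p.1)) (bv (eq1 p.2)) (dn D L) r} =
              Nat.card {p : ((x : Ce I Ch m) → Ch x.1) × (Ce I Ch (m + 1) → Bool) //
              Bad (sti (dwn ps p.1)) (bv p.2) (dn D L) r} :=
            Nat.card_congr (Equiv.subtypeEquiv ((Equiv.refl _).prodCongr eq1) fun _ => Iff.rfl)
          have e2 : Nat.card ((x : Ce I Ch m) → Ch x.1 → Bool) =
              Nat.card (Ce I Ch (m + 1) → Bool) := Nat.card_congr eq1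
          rw [e1, e2] at h2
          refine le_trans h2 ?_
          refine mul_le_mul_of_nonneg_right ?_ (by positivity)
          rw [hB]
          refine mul_le_mul_of_nonneg_left ?_ (by norm_num)
          refine pow_le_pow_left₀ (by positivity) ?_ r
          exact_mod_cast Nat.mul_le_mul_left 4 hrD)
      refine le_trans h1 ?_
      have h3 : ((gbs (T := List (TR W)) m G).length : ℝ) ≤ (s : ℝ) ^ m := by
        exact_mod_cast hlen
      calc ((gbs (T := List (TR W)) m G).length : ℝ) *
          (B * (Nat.card ((x : Ce I Ch m) → Ch x.1) * Nat.card (Ce I Ch (m + 1) → Bool))) ≤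
          (s : ℝ) ^ m *
          (B * (Nat.card ((x : Ce I Ch m) → Ch x.1) * Nat.card (Ce I Ch (m + 1) → Bool))) :=
            mul_le_mul_of_nonneg_right h3 (by positivity)
        _ = _ := by ring
    -- the later stages
    have hR : ∀ (a : (x : Ce I Ch m) → Ch x.1) (g : Ce I Ch (m + 1) → Bool),
        (Nat.card {y : Hn I Ch m × (Ce I Ch m → Bool) // ¬ gd (bv (ovr a g y.2)) r m (r * D)
          (dwn ps a) y.1 (gmap (T := List (TR W)) (fun L => can (sti (dwn ps a))
            (bv (ovr a g y.2)) (dn D L) r []) m G)} : ℝ) * (M : ℝ) ^ r ≤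
        ((m : ℝ) * (s : ℝ) ^ m * B) * (Nat.card (Hn I Ch m) * Nat.card (Ce I Ch m → Bool)) := by
      intro a g
      have hd := dwn_inj hps a
      have hG' : ∀ g2 : Ce I Ch m → Bool, gmap (T := List (TR W)) (fun L => can (sti (dwn ps a))
            (bv (ovr a g g2)) (dn D L) r []) m G = gmap (T := List (TR W)) (fun L =>
            can (sti (dwn ps a)) (bv g) (dn D L) r []) m G := by
        intro g2
        refine hG6 _ _ _ _ m G ?_
        intro L hL
        refine (hcan a (bv g) L hL).2.2.2 _ ?_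
        intro T hTT p hp hp0
        obtain ⟨y, hy⟩ := (hDNS W D L).2.2.2.2.1 (fun w => ∃ x, ps x = w)
          (fun T hTL => (hT' L hL T hTL).2.2) T hTT p hp
        rw [← hy, hbv, hbv, ovr_not]
        intro x hx
        have h1 : sti (dwn ps a) p.1 = some x := (sti_iff hd _ _).2 (by
          rw [← hy, ← hx]; rfl)
        rw [hp0] at h1
        cases h1
      have h1 := ih (r * D) (dwn ps a) (fun g2 => bv (ovr a g g2)) (gmap (T := List (TR W))
          (fun L => can (sti (dwn ps a)) (bv g) (dn D L) r []) m G) hd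
        (by
          intro g2 x
          show bv (ovr a g g2) (ps (stc a x)) = g2 x
          rw [hbv, ovr_stc])
        (by
          intro g2 g2' w hw
          by_cases hy : ∃ y, ps y = w
          · obtain ⟨y, rfl⟩ := hy
            have hy' : ∀ x, stc a x ≠ y := by
              rintro x rfl
              exact hw x rfl
            show bv (ovr a g g2) (ps y) = bv (ovr a g g2') (ps y)
            rw [hbv, hbv, ovr_not a g g2 y hy', ovr_not a g g2' y hy']
          · exact hoth _ _ w fun x hx => hy ⟨x, hx⟩)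
        ((hG2 _ _ _ s m G).2 hsz')
        (by
          intro T hTT
          have e1 := hG1 (List (TR W)) (TR W)
            (fun L => can (sti (dwn ps a)) (bv g) (dn D L) r []) m G
          have hTT' := (congrArg (fun l : List (TR W) => T ∈ l) e1).mp hTT
          obtain ⟨L, hL, rfl⟩ := List.mem_map.1 hTT'
          obtain ⟨h2, h3, h4, _⟩ := hcan a (bv g) L hL
          exact ⟨h2, h3, h4⟩)
        hM hs hr hM1 (by
          refine le_trans (le_of_eq ?_) hrM
          rw [pow_succ]; ring)
      have e : B = 3 * (4 * ((r : ℝ) * ((r : ℝ) ^ m * ((r * D : ℕ) : ℝ)))) ^ r := by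
        rw [hB, pow_succ]; push_cast; ring_nf
      rw [e]
      simp_rw [hG']
      exact h1
    have hmain := stage (A := (x : Ce I Ch m) → Ch x.1) (H := Hn I Ch m)
      (Gf := Ce I Ch (m + 1) → Bool) (G2 := Ce I Ch m → Bool)
      (fun a g => ∃ L ∈ gbs (T := List (TR W)) m G, Bad (sti (dwn ps a)) (bv g) (dn D L) r)
      (fun a b g => ¬ gd (bv g) r m (r * D) (dwn ps a) b (gmap (T := List (TR W))
        (fun L => can (sti (dwn ps a)) (bv g) (dn D L) r []) m G))
      (fun x => ¬ gd (bv x.2) r (m + 1) D ps x.1 G) ovr rst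
      (by
        rintro ⟨⟨a, b⟩, g⟩ hx
        by_contra hcon
        simp only [not_or, not_not] at hcon
        refine hx ⟨fun L hL hbad => hcon.1 ⟨L, hL, hbad⟩, hcon.2⟩)
      swap_inj ((M : ℝ) ^ r) ((s : ℝ) ^ m * B) ((m : ℝ) * (s : ℝ) ^ m * B) (by positivity) hQ hR
    refine le_trans hmain ?_
    have hc : (Nat.card (((x : Ce I Ch m) → Ch x.1) × Hn I Ch m) : ℝ) =
        Nat.card (Hn I Ch (m + 1)) := rfl
    rw [hc]
    refine mul_le_mul_of_nonneg_right ?_ (by positivity)
    have hs1 : (1 : ℝ) ≤ s := by exact_mod_cast hs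
    have h5 : (s : ℝ) ^ m ≤ (s : ℝ) ^ (m + 1) := pow_le_pow_right₀ hs1 (Nat.le_succ m)
    push_cast
    calc (s : ℝ) ^ m * B + (m : ℝ) * (s : ℝ) ^ m * B = ((m : ℝ) + 1) * (s : ℝ) ^ m * B := by ring
      _ ≤ ((m : ℝ) + 1) * (s : ℝ) ^ (m + 1) * B := by
        refine mul_le_mul_of_nonneg_right ?_ hB0
        exact mul_le_mul_of_nonneg_left h5 (by positivity)

end Pool.Agent.H11.RK
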