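import Pool.Agent.H32.RK.TargetsA

/-!
# Pairs of quadratic forms over a number field: row TRB: from the residues to the box
-/

set_option autoImplicit false

open Finset NumberField Pool.Agent.H32.RQ Pool.Agent.H32.RK

namespace Pool.Agent.H11.RK

theorem el_sub {K : Type} [Field K] [NumberField K] {ι : Type} [Fintype ι]
    (ω : Module.Basis ι ℤ (𝓞 K)) (v v' : ι → ℤ) : el ω (v - v') = el ω v - el ω v' := by
  unfold el
  rw [← Finset.sum_sub_distrib]
  refine Finset.sum_congr rfl fun l _ => ?_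
  rw [Pi.sub_apply, sub_smul]

theorem el_inj {K : Type} [Field K] [NumberField K] {ι : Type} [Fintype ι]
    (ω : Module.Basis ι ℤ (𝓞 K)) : Function.Injective (el ω) := by
  intro v v' h
  have h1 : ∀ v : ι → ℤ, el ω v = ω.equivFun.symm v := fun v => by
    rw [Module.Basis.equivFun_symm_apply]
    rfl
  rw [h1, h1] at h
  exact ω.equivFun.symm.injective h

open Classical in
/-- one residue class -/
theorem one (K : Type) [Field K] [NumberField K] (hLAT : T_LAT K) (hNRM : T_NRM K)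
    (hCMP : T_CMP K) (ι : Type) [Fintype ι] [DecidableEq ι] (ω : Module.Basis ι ℤ (𝓞 K)) :
    ∃ C : ℝ, 1 ≤ C ∧ ∀ (A : ℕ) (𝔪 : Ideal (𝓞 K)) (r : 𝓞 K ⧸ 𝔪), 𝔪 ≠ ⊥ → 1 ≤ A →
    Ideal.absNorm 𝔪 ≤ A →
    (((bo ι A).filter fun v => Ideal.Quotient.mk 𝔪 (el ω v) = r).card : ℝ) *
      (Ideal.absNorm 𝔪 : ℝ) ≤ C * (2 * (A : ℝ) + 1) ^ Fintype.card ι := by
  obtain ⟨hd, C₁, hC₁, -, hC₁b⟩ := hCMP ι ω
  obtain ⟨C₂, hC₂, hL⟩ := hLAT
  obtain ⟨hN1, -, -, hN2, -⟩ := hNRM
  refine ⟨C₂ * (1 + (2 * C₁) ^ Fintype.card ι), ?_, ?_⟩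
  · have h1 : (0 : ℝ) ≤ (2 * C₁) ^ Fintype.card ι := by positivity
    nlinarith
  intro A 𝔪 r hm hA hNA
  have hd1 : 1 ≤ Fintype.card ι := by
    rw [hd]
    exact Module.finrank_pos
  have hN0 : 0 < Ideal.absNorm 𝔪 := Nat.pos_of_ne_zero (by
    rw [Ne, Ideal.absNorm_eq_zero_iff]
    exact hm)
  have hNr : (0 : ℝ) < Ideal.absNorm 𝔪 := by exact_mod_cast hN0
  have hAr : (1 : ℝ) ≤ A := by exact_mod_cast hA
  set S := (bo ι A).filter fun v => Ideal.Quotient.mk 𝔪 (el ω v) = r with hS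
  set g : (ι → ℤ) → K := fun v => ((el ω v : 𝓞 K) : K) with hg
  have hginj : Function.Injective g := fun v v' h =>
    el_inj ω (RingOfIntegers.ext h)
  have hcard : (S.image g).card = S.card := Finset.card_image_of_injective _ hginj
  have hD : (0 : ℝ) < C₁ * (2 * A) := by positivity
  have h1 := hL (S.image g) (fun _ => C₁ * (2 * A)) (Ideal.absNorm 𝔪 : ℝ) hNr (fun _ => hD) (by
    intro t ht t' ht' htt
    obtain ⟨v, hv, rfl⟩ := Finset.mem_image.mp ht
    obtain ⟨v', hv', rfl⟩ := Finset.mem_image.mp ht'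
    rw [hS, Finset.mem_filter] at hv hv'
    have h2 : g v - g v' = ((el ω (v - v') : 𝓞 K) : K) := by
      rw [el_sub, hg]
      push_cast
      rfl
    rw [h2]
    refine ⟨hC₁b (v - v') (2 * A) fun l => ?_, hN1 𝔪 _ ?_ ?_⟩
    · have h3 := Finset.mem_Icc.mp (Fintype.mem_piFinset.mp hv.1 l)
      have h4 := Finset.mem_Icc.mp (Fintype.mem_piFinset.mp hv'.1 l)
      have h5 : |(v - v') l| ≤ 2 * (A : ℤ) := by
        rw [Pi.sub_apply, abs_le]
        constructor <;> linarith [h3.1, h3.2, h4.1, h4.2]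
      exact_mod_cast h5
    · rw [el_sub, ← Ideal.Quotient.eq, hv.2, hv'.2]
    · rw [el_sub]
      intro h3
      exact htt (congrArg (fun a : 𝓞 K => (a : K)) (sub_eq_zero.mp h3)))
  rw [hcard, hN2] at h1
  have hdg : dg K = Fintype.card ι := hd.symm
  rw [hdg] at h1
  set d := Fintype.card ι with hdd
  have h2 : (S.card : ℝ) * Ideal.absNorm 𝔪 ≤ C₂ * (Ideal.absNorm 𝔪 + (C₁ * (2 * A)) ^ d) := by
    calc (S.card : ℝ) * Ideal.absNorm 𝔪
        ≤ C₂ * (1 + (C₁ * (2 * A)) ^ d / Ideal.absNorm 𝔪) * Ideal.absNorm 𝔪 :=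
          mul_le_mul_of_nonneg_right h1 hNr.le
      _ = C₂ * (Ideal.absNorm 𝔪 + (C₁ * (2 * A)) ^ d) := by
          field_simp
  have h3 : (Ideal.absNorm 𝔪 : ℝ) ≤ (2 * (A : ℝ) + 1) ^ d := by
    have h4 : (Ideal.absNorm 𝔪 : ℝ) ≤ A := by exact_mod_cast hNA
    have h5 : (2 * (A : ℝ) + 1) ≤ (2 * (A : ℝ) + 1) ^ d := le_self_pow₀ (by linarith) (by omega)
    linarith
  have h6 : (C₁ * (2 * (A : ℝ))) ^ d ≤ (2 * C₁) ^ d * (2 * (A : ℝ) + 1) ^ d := by
    rw [← mul_pow]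
    exact pow_le_pow_left₀ hD.le (by nlinarith) _
  calc (S.card : ℝ) * Ideal.absNorm 𝔪 ≤ C₂ * (Ideal.absNorm 𝔪 + (C₁ * (2 * A)) ^ d) := h2
    _ ≤ C₂ * ((2 * (A : ℝ) + 1) ^ d + (2 * C₁) ^ d * (2 * (A : ℝ) + 1) ^ d) :=
        mul_le_mul_of_nonneg_left (add_le_add h3 h6) (by linarith)
    _ = _ := by ring

theorem pf_TRB (K : Type) [Field K] [NumberField K] (hLAT : T_LAT K) (hNRM : T_NRM K)
    (hCMP : T_CMP K) : T_TRB K := by
  classical
  intro ι _ _ ω
  obtain ⟨C, hC, h1⟩ := one K hLAT hNRM hCMP ι ω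
  refine ⟨C, hC, ?_⟩
  intro s A 𝔪 E hm hA hNA
  have hfin : Finite (𝓞 K ⧸ 𝔪) := Ideal.finiteQuotientOfFreeOfNeBot 𝔪 hm
  have hE : E.Finite := Set.toFinite E
  have hfi : Fintype (𝓞 K ⧸ 𝔪) := Fintype.ofFinite _
  have h0 : (0 : ℝ) ≤ C := by linarith
  have h2 : ∀ F : Fin 2 → Mon s → 𝓞 K ⧸ 𝔪,
      (((bx ι s A).filter fun c => cq 𝔪 (ec ω c) = F).card : ℝ) *
        (Ideal.absNorm 𝔪 : ℝ) ^ (2 * md s) ≤
      C ^ (2 * md s) * (2 * (A : ℝ) + 1) ^ (2 * md s * Fintype.card ι) := by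
    intro F
    have h3 : ((bx ι s A).filter fun c => cq 𝔪 (ec ω c) = F) =
        Fintype.piFinset fun i => Fintype.piFinset fun p =>
          (bo ι A).filter fun v => Ideal.Quotient.mk 𝔪 (el ω v) = F i p := by
      ext c
      simp only [Pool.Agent.H32.RK.bx, Finset.mem_filter, Fintype.mem_piFinset]
      constructor
      · rintro ⟨h4, h5⟩ i p
        exact ⟨h4 i p, congrFun (congrFun h5 i) p⟩
      · intro h4
        exact ⟨fun i p => (h4 i p).1, funext fun i => funext fun p => (h4 i p).2⟩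
    rw [h3, Fintype.card_piFinset]
    simp only [Fintype.card_piFinset]
    push_cast
    have h4 : (Ideal.absNorm 𝔪 : ℝ) ^ (2 * md s) =
        ∏ _i : Fin 2, ∏ _p : Mon s, (Ideal.absNorm 𝔪 : ℝ) := by
      simp only [Finset.prod_const, Finset.card_univ, Fintype.card_fin]
      rw [← pow_mul, mul_comm]
    have h5 : C ^ (2 * md s) * (2 * (A : ℝ) + 1) ^ (2 * md s * Fintype.card ι) =
        ∏ _i : Fin 2, ∏ _p : Mon s, (C * (2 * (A : ℝ) + 1) ^ Fintype.card ι) := by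
      simp only [Finset.prod_const, Finset.card_univ, Fintype.card_fin]
      rw [← pow_mul, mul_pow, ← pow_mul, mul_comm (Fintype.card (Mon s)) 2]
      congr 2
      ring
    rw [h4, h5, ← Finset.prod_mul_distrib]
    refine Finset.prod_le_prod (fun i _ => ?_) fun i _ => ?_
    · positivity
    · rw [← Finset.prod_mul_distrib]
      refine Finset.prod_le_prod (fun p _ => ?_) fun p _ => ?_
      · positivity
      · exact h1 A 𝔪 (F i p) hm hA hNA
  have h6 : ((bx ι s A).filter fun c => cq 𝔪 (ec ω c) ∈ E).card =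
      ∑ F ∈ hE.toFinset, ((bx ι s A).filter fun c => cq 𝔪 (ec ω c) = F).card := by
    rw [Finset.card_eq_sum_card_fiberwise (f := fun c => cq 𝔪 (ec ω c)) (t := hE.toFinset)]
    · refine Finset.sum_congr rfl fun F hF => ?_
      rw [Finset.filter_filter]
      congr 1
      ext c
      simp only [Finset.mem_filter]
      constructor
      · rintro ⟨h7, -, h8⟩
        exact ⟨h7, h8⟩
      · rintro ⟨h7, h8⟩
        refine ⟨h7, ?_, h8⟩
        rw [h8]
        exact hE.mem_toFinset.mp hF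
    · intro c hc
      have h7 := (Finset.mem_filter.mp hc).2
      exact hE.mem_toFinset.mpr h7
  have h8 : Nat.card E = hE.toFinset.card := Nat.card_eq_card_finite_toFinset hE
  rw [h6, h8]
  push_cast
  rw [Finset.sum_mul]
  calc ∑ F ∈ hE.toFinset, (((bx ι s A).filter fun c => cq 𝔪 (ec ω c) = F).card : ℝ) *
        (Ideal.absNorm 𝔪 : ℝ) ^ (2 * md s)
      ≤ ∑ F ∈ hE.toFinset, C ^ (2 * md s) * (2 * (A : ℝ) + 1) ^ (2 * md s * Fintype.card ι) :=
        Finset.sum_le_sum fun F _ => h2 F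
    _ = _ := by
        rw [Finset.sum_const, nsmul_eq_mul]
        ring

end Pool.Agent.H11.RK
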