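import Pool.Agent.H70.RK.T2

/-!
# Recursive evaluation (module VLK)
-/

set_option autoImplicit false

namespace Pool.Agent.H11.RK

open Finset Filter Pool.Agent.H6.NB Pool.Agent.H70.OQ Pool.Agent.H78.XQ Pool.Agent.H70.RK
open Pool.Agent.H70.RC (Term DNF pv fv psat run Bad)

section vlk

variable {V W S : Type}

/-- `π` is an initial segment of the list of the true answers -/
def Tru (O : W → Bool) : TR W → List Bool → Prop
  | _, [] => True
  | .leaf _, _ :: _ => False
  | .node w l r, b :: π => O w = b ∧ Tru O (if b then r else l) π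

theorem tru_cases (O : W → Bool) (U : W → Prop) : ∀ (T : TR W) (π : List Bool), T.On U →
    Tru O T π → π.length ≤ T.depth ∧ ((T.walk π).2 = some (T.eval O) ∨ ((T.walk π).2 = none ∧
      ∃ w, (T.walk (π ++ [false])).1[π.length]? = some (w, false) ∧ Tru O T (π ++ [O w]) ∧ U w)) := by
  intro T
  induction T with
  | leaf o =>
    intro π _ h
    cases π with
    | nil => exact ⟨by simp, Or.inl rfl⟩
    | cons b π => exact absurd h (by simp [Tru])
  | node w l r ihl ihr =>
    intro π hU h
    cases π with
    | nil =>
      refine ⟨by simp, Or.inr ⟨rfl, w, ?_, ?_, hU.1⟩⟩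
      · simp [TR.walk]
      · simp [Tru]
    | cons b π =>
      obtain ⟨h1, h2⟩ := h
      cases b
      · simp only [Bool.false_eq_true, if_false] at h2
        obtain ⟨h3, h4⟩ := ihl π hU.2.1 h2
        refine ⟨by simp only [List.length_cons, TR.depth]; omega, ?_⟩
        rcases h4 with h4 | ⟨h4, v, h5, h6, h7⟩
        · left
          simp [TR.walk, TR.eval, h1, h4]
        · right
          refine ⟨by simp [TR.walk, h4], v, ?_, ?_, h7⟩
          · simp only [List.cons_append, TR.walk, Bool.false_eq_true, if_false, List.length_cons,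
              List.getElem?_cons_succ]
            exact h5
          · simp only [List.cons_append]
            exact ⟨h1, by simpa using h6⟩
      · simp only [if_true] at h2
        obtain ⟨h3, h4⟩ := ihr π hU.2.2 h2
        refine ⟨by simp only [List.length_cons, TR.depth]; omega, ?_⟩
        rcases h4 with h4 | ⟨h4, v, h5, h6, h7⟩
        · left
          simp [TR.walk, TR.eval, h1, h4]
        · right
          refine ⟨by simp [TR.walk, h4], v, ?_, ?_, h7⟩
          · simp only [List.cons_append, TR.walk, if_true, List.length_cons,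
              List.getElem?_cons_succ]
            exact h5
          · simp only [List.cons_append]
            exact ⟨h1, by simpa using h6⟩

theorem adp_mono {V α : Type} {q : ((V → Bool) → Bool) → Prop} {c : ℕ} {g : (V → Bool) → α}
    (h : Adp q c g) : ∀ {c' : ℕ}, c ≤ c' → Adp q c' g := by
  induction h with
  | pure c a => intro c' _; exact Adp.pure c' a
  | ask c p g g0 g1 hp h0 h1 hg1 hg0 ih0 ih1 =>
    intro c' hc
    obtain ⟨c'', rfl⟩ : ∃ c'', c' = c'' + 1 := ⟨c' - 1, by omega⟩
    exact Adp.ask c'' p g g0 g1 hp (ih0 (by omega)) (ih1 (by omega)) hg1 hg0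

/-- second part of a step -/
def stpB (π : List Bool) (nx : W → (V → Bool) → Bool) (rc : Bool → (V → Bool) → Bool)
    (a : Term W × Option (Option Bool)) (X : V → Bool) : Bool :=
  match a.1[π.length]? with
  | none => false
  | some p => rc (nx p.1 X) X

/-- first part of a step -/
def stpA (T : (V → Bool) → TR W) (π : List Bool) (nx : W → (V → Bool) → Bool)
    (rc : Bool → (V → Bool) → Bool) (a : Term W × Option (Option Bool)) (X : V → Bool) : Bool :=
  match a.2 with
  | some o => decide (o = some true)
  | none => stpB π nx rc ((T X).walk (π ++ [false])) X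

/-- the evaluation of a tree with given answers -/
def stp (T : (V → Bool) → TR W) (nx : W → (V → Bool) → Bool) : ℕ → List Bool → (V → Bool) → Bool
  | 0, _ => fun _ => false
  | n + 1, π => fun X => stpA T π nx (fun b => stp T nx n (π ++ [b])) ((T X).walk π) X

theorem stp_adp (hADB : T_ADB) (q : ((V → Bool) → Bool) → Prop) (T : (V → Bool) → TR W)
    (nx : W → (V → Bool) → Bool) (c c1 : ℕ) (hT : ∀ π, Adp q c fun X => (T X).walk π)
    (hnx : ∀ w, Adp q c1 (nx w)) : ∀ (n : ℕ) (π : List Bool),
    Adp q (n * (2 * c + c1)) (stp T nx n π) := by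
  intro n
  induction n with
  | zero => intro π; exact Adp.pure _ _
  | succ n ih =>
    intro π
    have e : (n + 1) * (2 * c + c1) = c + (c + (c1 + n * (2 * c + c1))) := by ring
    rw [e, stp]
    refine hADB V (Term W × Option (Option Bool)) Bool q c (c + (c1 + n * (2 * c + c1)))
      (fun X => (T X).walk π) (stpA T π nx (fun b => stp T nx n (π ++ [b]))) (hT π) ?_
    rintro ⟨a1, a2⟩
    cases a2 with
    | some o => exact Adp.pure _ (decide (o = some true))
    | none =>
      refine hADB V (Term W × Option (Option Bool)) Bool q c (c1 + n * (2 * c + c1))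
        (fun X => (T X).walk (π ++ [false])) (stpB π nx (fun b => stp T nx n (π ++ [b])))
        (hT _) ?_
      rintro ⟨a3, a4⟩
      cases h : a3[π.length]? with
      | none =>
        have e : stpB π nx (fun b => stp T nx n (π ++ [b])) (a3, a4) = fun _ => false := by
          funext X
          simp only [stpB, h]
        rw [e]
        exact Adp.pure _ _
      | some p =>
        have e : stpB π nx (fun b => stp T nx n (π ++ [b])) (a3, a4) =
            fun X => (fun (b : Bool) (X : V → Bool) => stp T nx n (π ++ [b]) X) (nx p.1 X) X := by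
          funext X
          simp only [stpB, h]
        rw [e]
        exact hADB V Bool Bool q c1 (n * (2 * c + c1)) (nx p.1)
          (fun b X => stp T nx n (π ++ [b]) X) (hnx p.1) (fun b => ih (π ++ [b]))

theorem stp_eval (T : (V → Bool) → TR W) (nx : W → (V → Bool) → Bool) (X : V → Bool)
    (O : W → Bool) (U : W → Prop) (D : ℕ) (hD : (T X).depth ≤ D) (hU : (T X).On U)
    (hnx : ∀ w, U w → nx w X = O w) : ∀ (n : ℕ) (π : List Bool), Tru O (T X) π →
    D + 1 ≤ n + π.length → stp T nx n π X = decide ((T X).eval O = some true) := by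
  intro n
  induction n with
  | zero =>
    intro π hπ hn
    have := (tru_cases O U (T X) π hU hπ).1
    omega
  | succ n ih =>
    intro π hπ hn
    obtain ⟨h1, h2⟩ := tru_cases O U (T X) π hU hπ
    rw [stp]
    rcases h2 with h2 | ⟨h2, w, h3, h4, h5⟩
    · simp only [stpA, h2]
    · simp only [stpA, stpB, h2, h3]
      rw [hnx w h5]
      refine ih _ h4 ?_
      rw [List.length_append, List.length_singleton]
      omega

end vlk

open Classical in
theorem pf_VLK (hADB : T_ADB) : T_VLK := by
  intro V W S t k c D sp T lv hsp hT
  set A : ℕ := (D + 1) * (2 * c + 1) with hA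
  have hA1 : 1 ≤ A := Nat.one_le_iff_ne_zero.2 (by positivity)
  let nx : (S → (V → Bool) → Bool) → S → W → (V → Bool) → Bool := fun G s w X =>
    if h : ∃ s', sp s' = w ∧ lv s' < lv s then G h.choose X else false
  let Gn : ℕ → S → (V → Bool) → Bool := fun n => Nat.rec (fun _ _ => false)
    (fun _ G s => stp (T s) (nx G s) (D + 1) []) n
  have hG : ∀ n s, Gn (n + 1) s = stp (T s) (nx (Gn n) s) (D + 1) [] := fun n s => rfl
  have h1 : ∀ L s, lv s < L → Adp (Qst V t k) (A ^ (lv s + 1)) (Gn L s) := by
    intro L
    induction L with
    | zero => intro s hs; omega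
    | succ L ih =>
      intro s hs
      rw [hG]
      have hnx : ∀ w, Adp (Qst V t k) (A ^ lv s) (nx (Gn L) s w) := by
        intro w
        by_cases h : ∃ s', sp s' = w ∧ lv s' < lv s
        · have e : nx (Gn L) s w = Gn L h.choose := by
            funext X
            simp only [nx, dif_pos h]
          rw [e]
          have h2 := h.choose_spec.2
          refine adp_mono (ih h.choose (by omega)) ?_
          exact Nat.pow_le_pow_right hA1 (by omega)
        · have e : nx (Gn L) s w = fun _ => false := by
            funext X
            simp only [nx, dif_neg h]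
          rw [e]
          exact Adp.pure _ _
      have h3 := stp_adp hADB (Qst V t k) (T s) (nx (Gn L) s) c (A ^ lv s) (hT s) hnx (D + 1) []
      refine adp_mono h3 ?_
      have h4 : 1 ≤ A ^ lv s := Nat.one_le_pow _ _ hA1
      calc (D + 1) * (2 * c + A ^ lv s) ≤ (D + 1) * ((2 * c + 1) * A ^ lv s) := by
            refine Nat.mul_le_mul_left _ ?_
            nlinarith
        _ = A ^ (lv s + 1) := by rw [pow_succ, hA]; ring
  have h2 : ∀ (X : V → Bool) (O : W → Bool), (∀ s, (T s X).depth ≤ D ∧
        ((T s X).On fun w => ∃ s', sp s' = w ∧ lv s' < lv s) ∧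
        (O (sp s) = true ↔ (T s X).eval O = some true)) →
      ∀ L s, lv s < L → O (sp s) = Gn L s X := by
    intro X O hO L
    induction L with
    | zero => intro s hs; omega
    | succ L ih =>
      intro s hs
      rw [hG]
      obtain ⟨h3, h4, h5⟩ := hO s
      rw [stp_eval (T s) (nx (Gn L) s) X O _ D h3 h4 ?_ (D + 1) [] trivial (by simp)]
      · rw [Bool.eq_iff_iff, h5, decide_eq_true_eq]
      · rintro w h
        have hc := h.choose_spec
        have e : nx (Gn L) s w X = Gn L h.choose X := by
          simp only [nx, dif_pos h]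
        rw [e, ← ih h.choose (by omega), hc.1]
  exact ⟨fun s => Gn (lv s + 1) s, fun s => h1 _ s (Nat.lt_succ_self _),
    fun X O hO s => h2 X O hO _ s (Nat.lt_succ_self _)⟩

end Pool.Agent.H11.RK
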